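import Pool.Agent.Helper33.IR.Goals
import Pool.Agent.Helper17.IR.Final

/-!
# Project IR: `G_CZ` from the machine of helper17
-/

set_option autoImplicit false

namespace Pool.Agent.Helper33.IR

theorem gCZ : G_CZ := by
  intro ι _ _ k0 a x y M B I C kap kap1 del hI hB ha hdel hkap hkap1 hxy hM hnear hlow hy
  obtain ⟨k, hk, s, t, hst⟩ := Pool.Agent.Helper17.IR.cz' ι k0 a x y M B I C kap kap1 del hI hB ha hkap
    hdel hkap1 hxy (by
      intro n hn
      have := hnear n hn
      simpa only [mul_assoc] using this) hlow hy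
  exact ⟨k, hk, s, t, hst⟩

end Pool.Agent.Helper33.IR
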