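import Pool.Agent.Helper33.IR.Asm
import Pool.Agent.Helper33.IR.CZ
import Pool.Agent.Helper13.IR.NZFIN
import Pool.Agent.Helper31.IR.CN4
import Pool.Agent.Helper43.IR.DIST
import Pool.Agent.Helper43.IR.ENUM
import Pool.Agent.Helper44.IR.CRW
import Pool.Agent.Helper47.IR.INT
import Pool.Agent.Helper59.IR.SHIFT
import Pool.Agent.Helper72.IR.CN3
import Pool.Agent.Helper79.IR.ABS
import Pool.Agent.Helper86.IR.BA
import Pool.Agent.Helper97.IR.CRZ

/-!
# Project IR: the number `V` is irrational (no hypotheses)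
-/

set_option autoImplicit false

namespace Pool.Agent.Helper33.IR

theorem gABS' : G_ABS :=
  Pool.Agent.Helper79.IR.gABS gCZ (Pool.Agent.Helper47.IR.gINT Pool.Agent.Helper59.IR.gSHIFT)
    Pool.Agent.Helper43.IR.gENUM Pool.Agent.Helper43.IR.gENUM0

/-- the number `V` (`lambda = 11/18 + V/3`) is irrational -/
theorem irrV : Irrational V :=
  irr gABS' Pool.Agent.Helper86.IR.gBA
    (Pool.Agent.Helper13.IR.gFIN) Pool.Agent.Helper72.IR.gCN3
    Pool.Agent.Helper31.IR.gCN4 Pool.Agent.Helper44.IR.gCRW Pool.Agent.Helper97.IR.gCRZ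
    Pool.Agent.Helper43.IR.gDIST

end Pool.Agent.Helper33.IR
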