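import Pool.Agent.Helper33.IR.Goals

/-!
# Project IR: assembly of the irrationality of `V`
-/

set_option autoImplicit false

namespace Pool.Agent.Helper33.IR

theorem om_int (t : ℚ) : ∃ z : ℤ, ((20 : ℕ) : ℚ) * om t = z := by
  refine ⟨(if t < 2 then 10 else 0) - (if 2 < t then 20 else 0) -
    (if 8 / 5 ≤ t ∧ t < 2 then 2 else 0) + (if 1 < t ∧ t ≤ 5 / 4 then 5 else 0), ?_⟩
  unfold om
  push_cast
  split_ifs <;> norm_num

theorem ze_int (t : ℚ) : ∃ z : ℤ, ((20 : ℕ) : ℚ) * ze t = z := by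
  refine ⟨(if 1 < t ∧ t < 3 / 2 then 10 else 0) - (if 2 < t then 20 else 0) -
    (if 10 / 9 < t ∧ t < 4 / 3 then 20 else 0) + (if 3 / 2 < t ∧ t ≤ 9 / 5 then 1 else 0), ?_⟩
  unfold ze
  push_cast
  split_ifs <;> norm_num

theorem om_le (t : ℚ) : |((om t : ℚ) : ℝ)| ≤ 3 := by
  have h : |om t| ≤ 3 := by
    unfold om
    rw [abs_le]
    constructor <;> split_ifs <;> norm_num
  exact_mod_cast h

theorem ze_le (t : ℚ) : |((ze t : ℚ) : ℝ)| ≤ 3 := by
  have h : |ze t| ≤ 3 := by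
    unfold ze
    rw [abs_le]
    constructor <;> split_ifs <;> norm_num
  exact_mod_cast h

theorem card_bound {α β : Type*} [DecidableEq α] (S : Finset α) (T : Finset β) (P : β → α → Prop)
    (k : ℕ) (h : ∀ b ∈ S, ∃ t ∈ T, P t b) (hc : ∀ t ∈ T, ∀ S' : Finset α, S' ⊆ S →
      (∀ b ∈ S', P t b) → S'.card ≤ k) : S.card ≤ T.card * k := by
  classical
  have hsub : S ⊆ T.biUnion (fun t => S.filter (fun b => P t b)) := by
    intro b hb
    obtain ⟨t, ht, hp⟩ := h b hb
    exact Finset.mem_biUnion.2 ⟨t, ht, Finset.mem_filter.2 ⟨hb, hp⟩⟩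
  refine (Finset.card_le_card hsub).trans ?_
  refine Finset.card_biUnion_le_card_mul _ _ _ ?_
  intro t ht
  exact hc t ht _ (Finset.filter_subset _ _) (fun b hb => (Finset.mem_filter.1 hb).2)

theorem pow_bound {q p : ℕ} (h : |lin q p| < 1 / 20) : (4 : ℝ) ^ p ≤ 2 * 3 ^ q := by
  have h2 : (1 : ℝ) / 20 < Real.log 2 := by
    have := Real.log_two_gt_d9
    linarith
  have h3 : (p : ℝ) * Real.log 4 ≤ Real.log 2 + q * Real.log 3 := by
    have := (abs_lt.1 h).1
    unfold lin at this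
    push_cast at this
    linarith
  have h4 := Real.exp_le_exp.2 h3
  rw [Real.exp_add, Real.exp_log (by norm_num), ← Real.log_pow, ← Real.log_pow,
    Real.exp_log (by positivity), Real.exp_log (by positivity)] at h4
  exact h4

theorem Th3_card : Th3.card ≤ 5 := by
  unfold Th3
  exact Finset.card_le_five

theorem Th4_card : Th4.card ≤ 7 := by
  unfold Th4
  refine (Finset.card_insert_le _ _).trans ?_
  have : ({10 / 9, 4 / 3, 3 / 2, 9 / 5, 2, 3} : Finset ℚ).card ≤ 6 := Finset.card_le_six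
  omega

theorem irr (hABS : G_ABS) (hBA : G_BA) (hFIN : G_FIN) (hCN3 : G_CN3) (hCN4 : G_CN4)
    (hCRW : G_CRW) (hCRZ : G_CRZ) (hDIST : G_DIST) : G_IRR := by
  classical
  have hch : ∀ n : ℕ, ∃ q p q' p' : ℕ, Best q p q' p' ∧ |lin q p| < 1 / ((n : ℝ) + 1) ∧
      n ≤ q ∧ n ≤ p := fun n => hBA (1 / ((n : ℝ) + 1)) n (by positivity)
  choose q p q' p' hB hl hnq hnp using hch
  unfold G_IRR V
  refine hABS W Z 20 3 100 q p q' (by norm_num) (fun b => om_int _) (fun j => ze_int _)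
    (fun b => om_le _) (fun j => ze_le _) (fun n => (hnq n).trans (hB n).lt.le)
    (fun n => (hB n).lt.le) (fun n => pow_bound (hB n).small) hnp ?_ ?_ ?_ ?_
  · intro n S hS
    have h := card_bound S Th3 (fun t b => Cross3 (lin (q n) (p n)) t b) 6
      (fun b hb => hCRW _ _ _ _ (hB n) b (hS b hb).1 (hS b hb).2.2)
      (fun t _ S' hS' hc => hCN3 _ _ _ _ (hB n) t S' (fun b hb =>
        ⟨(hS b (hS' hb)).1, (hS b (hS' hb)).2.1, hc b hb⟩))
    have := Th3_card
    nlinarith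
  · intro n S hS
    have h := card_bound (S.erase 1) Th4 (fun t b => Cross4 (lin (q n) (p n)) t b) 12
      (fun j hj => hCRZ _ _ _ _ (hB n) j (by
        have h1 := Finset.ne_of_mem_erase hj
        have h2 := (hS j (Finset.mem_of_mem_erase hj)).1
        omega) (hS j (Finset.mem_of_mem_erase hj)).2.2)
      (fun t _ S' hS' hc => hCN4 _ _ _ _ (hB n) t S' (fun j hj =>
        ⟨(hS j (Finset.mem_of_mem_erase (hS' hj))).1,
          (hS j (Finset.mem_of_mem_erase (hS' hj))).2.1, hc j hj⟩))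
    have h7 := Th4_card
    have h8 : S.card ≤ (S.erase 1).card + 1 := by
      have := Finset.pred_card_le_card_erase (s := S) (a := 1)
      omega
    have : Th4.card * 12 ≤ 7 * 12 := Nat.mul_le_mul_right _ h7
    omega
  · intro n
    exact hDIST _ _ _ _ (hB n)
  · intro c hc
    obtain ⟨eps, heps, hf⟩ := hFIN c hc
    obtain ⟨n0, hn0⟩ := exists_nat_one_div_lt heps
    refine ⟨n0, fun n hn b hb hbc => ?_⟩
    by_contra hne
    obtain ⟨t, ht, hcr⟩ := hCRW _ _ _ _ (hB n) b hb hne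
    refine hf _ _ _ _ (hB n) ?_ t ht b hbc hcr
    refine (hl n).trans_le ?_
    refine le_trans ?_ hn0.le
    apply one_div_le_one_div_of_le (by positivity)
    have : (n0 : ℝ) ≤ n := by exact_mod_cast hn
    linarith

end Pool.Agent.Helper33.IR
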