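import Mathlib

/-!
# Project IR (MP_6829b3_nt): the number `V` with `lambda = 11/18 + V/3`

`V = sum_b W b / 3^b + sum_j Z j / 4^j`, where `W b` depends on the position of `3^b` between two
powers of `4` and `Z j` on the position of `4^j` between two powers of `3`.
-/

set_option autoImplicit false

namespace Pool.Agent.Helper33.IR

/-- position of `3^b` in its block `[4^m, 4^(m+1))`, a number in `[1,4)` -/
def rr (b : ℕ) : ℚ := 3 ^ b / 4 ^ (Nat.log 4 (3 ^ b))

/-- position of `4^j` in its block `[3^m, 3^(m+1))`, a number in `[1,3)` -/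
def ss (j : ℕ) : ℚ := 4 ^ j / 3 ^ (Nat.log 3 (4 ^ j))

/-- step function on `[1,4)` -/
def om (t : ℚ) : ℚ :=
  (if t < 2 then 1 / 2 else 0) - (if 2 < t then 1 else 0) -
    (if 8 / 5 ≤ t ∧ t < 2 then 1 / 10 else 0) + (if 1 < t ∧ t ≤ 5 / 4 then 1 / 4 else 0)

/-- step function on `[1,3)` -/
def ze (t : ℚ) : ℚ :=
  (if 1 < t ∧ t < 3 / 2 then 1 / 2 else 0) - (if 2 < t then 1 else 0) -
    (if 10 / 9 < t ∧ t < 4 / 3 then 1 else 0) + (if 3 / 2 < t ∧ t ≤ 9 / 5 then 1 / 20 else 0)

/-- the digits in base `3` -/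
def W (b : ℕ) : ℚ := om (rr b)

/-- the digits in base `4` -/
def Z (j : ℕ) : ℚ := ze (ss j)

/-- the constant `V`, `lambda = 11/18 + V/3` -/
noncomputable def V : ℝ := (∑' b : ℕ, (W b : ℝ) / 3 ^ b) + ∑' j : ℕ, (Z j : ℝ) / 4 ^ j

/-- `q log 3 - p log 4` -/
noncomputable def lin (q p : ℤ) : ℝ := q * Real.log 3 - p * Real.log 4

/-- two consecutive best approximations `p/q`, `p'/q'` of `log 3/log 4` -/
structure Best (q p q' p' : ℕ) : Prop where
  q_pos : 1 ≤ q
  p_pos : 1 ≤ p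
  lt : q < q'
  /-- `q` is a best approximation up to `q' - 1` -/
  best : ∀ d m : ℕ, 1 ≤ d → d < q' → |lin q p| ≤ |lin d m|
  /-- the next one is better -/
  better : |lin q' p'| < |lin q p|
  /-- and lies on the other side -/
  opp : lin q p * lin q' p' < 0
  /-- small -/
  small : |lin q p| < 1 / 20

/-- the thresholds of `om` (with both names `1`, `4` of the same point) -/
def Th3 : Finset ℚ := {1, 5 / 4, 8 / 5, 2, 4}

/-- the thresholds of `ze` -/
def Th4 : Finset ℚ := {1, 10 / 9, 4 / 3, 3 / 2, 9 / 5, 2, 3}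

/-- the point `b log 3` crosses the threshold `t` when `q` is added (`eta = lin q p`) -/
def Cross3 (eta : ℝ) (t : ℚ) (b : ℕ) : Prop :=
  ∃ m : ℕ, m ≤ b ∧ (lin b m - Real.log t) * (lin b m - Real.log t + eta) < 0

/-- the point `j log 4` crosses the threshold `t` when `p` is added (`eta = lin q p`) -/
def Cross4 (eta : ℝ) (t : ℚ) (j : ℕ) : Prop :=
  ∃ k : ℕ, k ≤ 2 * j ∧ (-lin k j - Real.log t) * (-lin k j - Real.log t - eta) < 0

end Pool.Agent.Helper33.IR
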