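import Pool.Agent.Helper33.IR.Defs

/-!
# Project IR (MP_6829b3_nt): the number `V` is irrational (block B: crossings, series, assembly)

Captain helper33; block A (subspace theorem over the rationals, S-units, the Corvaja-Zannier step
`G_CZ`) helper42.  Notation: `log` is `Real.log`, `theta = log 3/log 4`,
`lin q p = q log 3 - p log 4`.

All goals are `Prop`s; a packet proves one goal, possibly using other goals as hypotheses.
-/

set_option autoImplicit false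

namespace Pool.Agent.Helper33.IR

/-- **CZ** (block A, helper42; no packet of block B).  If an integer is very near to a linear
combination of `{2,3}`-units, and one of the units, `u_{k0}`, has nonzero coefficient, is not tiny
and is far from being integral at `3`, then some other unit is a constant multiple of `u_{k0}`
infinitely often. -/
def G_CZ : Prop :=
  ∀ (ι : Type) [Fintype ι] [DecidableEq ι] (k0 : ι) (a : ι → ℚ) (x y : ι → ℕ → ℤ)
    (M : ℕ → ℤ) (B : ℕ → ℝ) (I : Set ℕ) (C kap kap1 del : ℝ),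
    I.Infinite → (∀ n : ℕ, (n : ℝ) ≤ B n) → a k0 ≠ 0 → 0 < del → 0 < kap → kap1 < kap →
    (∀ k n, |(x k n : ℝ)| ≤ C * B n ∧ |(y k n : ℝ)| ≤ C * B n) →
    (∀ n ∈ I, |(M n : ℝ)| ≤ Real.exp (C * B n)) →
    (∀ n ∈ I, |(M n : ℝ) - ∑ k, (a k : ℝ) * (2 : ℝ) ^ (x k n) * (3 : ℝ) ^ (y k n)| ≤
      Real.exp (-kap * B n)) →
    (∀ n ∈ I, Real.exp (-kap1 * B n) ≤ (2 : ℝ) ^ (x k0 n) * (3 : ℝ) ^ (y k0 n)) →
    (∀ n ∈ I, (y k0 n : ℝ) ≤ -del * B n) →
    ∃ k ≠ k0, ∃ s t : ℤ, {n ∈ I | x k n = x k0 n + s ∧ y k n = y k0 n + t}.Infinite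

/-! ### Best approximations -/

/-- **BA**: there are pairs of consecutive best approximations as far out as we like.
PROOF.  `log 3/log 4` is irrational (`3^d = 4^m` with `d ≥ 1` is impossible: parity), so
`lin d m ≠ 0` for `d ≥ 1`.  For `d ≥ 1` let `f d = min_m |lin d m|` over `m : ℕ`
(attained; one may use `m = round (d * log 3/log 4)`, which is a natural number).
By Dirichlet (`Real.exists_nat_abs_mul_sub_round_le`) `f` takes arbitrarily small values.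
Let `delta > 0` be smaller than `eps`, `1/20` and all `f d` with `1 ≤ d ≤ 2n+2`.  Let `q` be the
least `d ≥ 1` with `f d < delta` (`Nat.find`), `p` a minimiser for it, and `q'` the least `d ≥ 1`
with `f d < f q`, `p'` its minimiser.  Then `q > 2n+2`, and `q' > q` because
`f d ≥ delta > f q` for `1 ≤ d < q`.  `best`, `better`, `small` are clear.
`p log 4 = q log 3 - lin q p ≥ (2n+2) - 1/20 ≥ n log 4` as `log 3 ≥ 1`, `log 4 ≤ 1.4`.
`opp`: the product is not zero; if it were positive, then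
`|lin (q'-q) (p'-p)| = |lin q' p' - lin q p| < |lin q p|` (both numbers have the same sign and
`|lin q' p'| < |lin q p|`), where `1 ≤ q'-q < q'` and `p' ≥ p` because
`(p'-p) log 4 = (q'-q) log 3 - (lin q' p' - lin q p) > log 3 - 1/10 > 0`; this contradicts
`best`. -/
def G_BA : Prop :=
  ∀ (eps : ℝ) (n : ℕ), 0 < eps → ∃ q p q' p' : ℕ, Best q p q' p' ∧ |lin q p| < eps ∧
    n ≤ q ∧ n ≤ p

/-- **NZ**: the thresholds other than `1` (and `4`) are not on the orbit, and `1` is there only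
at time `0`.
PROOF.  `lin c m = log t` means `c log 3 = m log 4 + log t`, i.e. `3^c = 4^m t` (`zpow`, take
`exp`).  For `t = 1, 2, 4` the right side is `2^k`, `k : ℤ`, and `3^c = 2^k` with `c ≠ 0` is
impossible (`padicValRat 3`).  For `t = 5/4, 8/5` compare `padicValRat 5`: `0` on the left,
`1` or `-1` on the right. -/
def G_NZ : Prop := ∀ (c m : ℤ) (t : ℚ), c ≠ 0 → t ∈ Th3 → lin c m ≠ Real.log (t : ℝ)

/-- **FIN**: for fixed `c ≠ 0` the point `q' + c` is no crossing if `lin q p` is small.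
PROOF (from NZ).  The numbers `lin c m0 - log t`, `m0 : ℤ`, are nonzero (NZ) and form a discrete
set (progression with difference `log 4`), so `|lin c m0 - log t| ≥ 2 eps` for all `m0 : ℤ`, with
some `eps > 0` (the minimum is attained at one of the two integers next to
`(c log 3 - log t)/log 4`), and one `eps` serves the five `t` of `Th3`.
If `b = q' + c` and `Cross3 (lin q p) t b` with `m`, then `x = lin b m - log t` and `x + lin q p`
have opposite signs, so `|x| < |lin q p| < eps`; but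
`x = lin q' p' + (lin c (m - p') - log t)` and `|lin q' p'| < |lin q p| < eps`: contradiction. -/
def G_FIN : Prop :=
  ∀ c : ℤ, c ≠ 0 → ∃ eps : ℝ, 0 < eps ∧ ∀ q p q' p' : ℕ, Best q p q' p' → |lin q p| < eps →
    ∀ t ∈ Th3, ∀ b : ℕ, (b : ℤ) = q' + c → ¬ Cross3 (lin q p) t b

/-- **CN3**: few crossings of one type in base `3`.
PROOF.  Let `b < b'` be in `S`, with `m, m'`.  `x = lin b m - log t` satisfies
`x (x + eta) < 0`, so `x` lies strictly between `-eta` and `0`; the same for `x'`, hence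
`|x' - x| < |eta|`, i.e. `|lin (b'-b) (m'-m)| < |lin q p| < 1/20`.  If `m' < m` then
`lin (b'-b) (m'-m) ≥ log 3`, impossible; so `m' ≥ m` and by `best` (contrapositive)
`b' - b ≥ q'`.  Elements of `S ⊆ [1, 6q']` at mutual distances `≥ q'`: the map
`b ↦ (b-1)/q'` (natural division) is injective on `S` with values `≤ 5`; so `card ≤ 6`. -/
def G_CN3 : Prop :=
  ∀ q p q' p' : ℕ, Best q p q' p' → ∀ (t : ℚ) (S : Finset ℕ),
    (∀ b ∈ S, 1 ≤ b ∧ b ≤ 6 * q' ∧ Cross3 (lin q p) t b) → S.card ≤ 6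

/-- **CN4**: few crossings of one type in base `4`.
PROOF.  As in CN3: `j < j'` in `S` with `k, k'`: `|lin (k'-k) (j'-j)| < |lin q p| < 1/20`.
`k' < k` or `k' = k` give `|lin| ≥ log 4`, impossible; so `k' - k ≥ 1`, and by `best`
`k' - k ≥ q'`.  Then `(j'-j) log 4 ≥ q' log 3 - 1/20`, and with `log 3/log 4 ≥ 3/4` (as
`3^4 = 81 > 64 = 4^3`), `log 4 ≥ 1`, `q' ≥ 2`: `2 (j'-j) ≥ q'`.  So `j ↦ 2(j-1)/q'` is injective
on `S` with values `< 12`: `card ≤ 12`. -/
def G_CN4 : Prop :=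
  ∀ q p q' p' : ℕ, Best q p q' p' → ∀ (t : ℚ) (S : Finset ℕ),
    (∀ j ∈ S, 1 ≤ j ∧ j ≤ 6 * q' ∧ Cross4 (lin q p) t j) → S.card ≤ 12

/-! ### Digits -/

/-- **CRW**: if the digit `W` changes then there is a crossing.
PROOF.  Let `m = Nat.log 4 (3^b)`, so `4^m ≤ 3^b < 4^(m+1)`, `m ≤ b`, `rr b = 3^b/4^m` and
`log (rr b) = lin b m =: x ∈ [0, log 4)`.  Put `eta = lin q p`, so that
`log (3^(b+q)/4^(m+p)) = x + eta`.  Suppose no `t ∈ Th3` has `Cross3 eta t b`, i.e.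
`(x - log t)(x + eta - log t) ≥ 0` for all five `t`.  None of the factors vanishes:
`3^b ≠ 4^m t` and `3^(b+q) ≠ 4^(m+p) t` for `t ∈ Th3`, as `b ≥ 1` (multiply out: a power of `3`
with positive exponent would be a power of two, or `5 * 3^b` a power of two, or `4 * 3^b`
equal to `5 * 4^m`, impossible mod `3`).  So `x` and `x + eta` lie strictly on the same side of
each of `0, log (5/4), log (8/5), log 2, log 4`.  From `0 < x < log 4` we get
`0 < x + eta < log 4`, so `Nat.log 4 (3^(b+q)) = m + p` and `rr (b+q) = 3^(b+q)/4^(m+p)`; `rr b` and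
`rr (b+q)` lie on the same side of `5/4, 8/5, 2`, so `om` has the same value at both. -/
def G_CRW : Prop :=
  ∀ q p q' p' : ℕ, Best q p q' p' → ∀ b : ℕ, 1 ≤ b → W (b + q) ≠ W b →
    ∃ t ∈ Th3, Cross3 (lin q p) t b

/-- **CRZ**: if the digit `Z` changes then there is a crossing (`j ≥ 2`, as `ss 1 = 4/3`).
PROOF.  As CRW with `k = Nat.log 3 (4^j)`, `k ≤ 2j`, `log (ss j) = j log 4 - k log 3 = - lin k j`
in `[0, log 3)`, `log (4^(j+p)/3^(k+q)) = - lin k j - lin q p`.  Nonvanishing for `j ≥ 2`: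
`4^j ≠ 3^k t` and `4^(j+p) ≠ 3^(k+q) t` for `t ∈ {1, 10/9, 4/3, 3/2, 9/5, 2, 3}` (the case
`t = 4/3` says `3 * 4^j = 4 * 3^k`, i.e. `4^(j-1) = 3^(k-1)`, impossible for `j ≥ 2`). -/
def G_CRZ : Prop :=
  ∀ q p q' p' : ℕ, Best q p q' p' → ∀ j : ℕ, 2 ≤ j → Z (j + p) ≠ Z j →
    ∃ t ∈ Th4, Cross4 (lin q p) t j

/-- **DIST**: the distinguished crossing `b = q'`.
PROOF.  `om t = 3/4` for `1 < t ≤ 5/4` and `om t = -1` for `2 < t`.  Let `eta = lin q p`,
`eta' = lin q' p'`, `|eta'| < |eta| < 1/20`, opposite signs.  If `eta' > 0`: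
`rr q' = exp eta' ∈ (1, 5/4)` (`Nat.log 4 (3^q') = p'`), and `eta + eta' < 0`, so
`3^(q'+q)/4^(p'+p) = exp (eta+eta') ∈ (1/2, 1)`, `Nat.log 4 (3^(q'+q)) = p' + p - 1`,
`rr (q'+q) = 4 exp (eta + eta') > 2`.  So the digits are `3/4` and `-1`.  If `eta' < 0`:
`rr q' = 4 exp eta' > 2`, digit `-1`, and `eta + eta' > 0`: `rr (q'+q) = exp (eta+eta')` in
`(1, 5/4)`, digit `3/4`. -/
def G_DIST : Prop := ∀ q p q' p' : ℕ, Best q p q' p' → W (q' + q) ≠ W q'

/-! ### Series -/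

/-- **SHIFT**: multiplication by `g^q - 1`.
PROOF.  `sum_b u_b/g^b` converges absolutely (geometric series).
`g^q sum_b u_b/g^b = sum_{b<q} u_b g^(q-b) + sum_b u_(b+q)/g^b` (`Summable.sum_add_tsum_nat_add`),
so the difference is the tail `sum_{b > T} (u_(b+q) - u_b)/g^b`, at most
`2C sum_{b>T} g^(-b) = 2C/(g^T (g-1)) ≤ 2C/g^T`. -/
def G_SHIFT : Prop :=
  ∀ (g : ℕ) (u : ℕ → ℝ) (C : ℝ), 2 ≤ g → (∀ b, |u b| ≤ C) → ∀ q T : ℕ,
    |((g : ℝ) ^ q - 1) * (∑' b, u b / (g : ℝ) ^ b) - ∑ b ∈ Finset.range q, u b * (g : ℝ) ^ (q - b) -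
      ∑ b ∈ Finset.range (T + 1), (u (b + q) - u b) / (g : ℝ) ^ b| ≤ 2 * C / (g : ℝ) ^ T

/-- **INT**: if the sum of the two series is rational, then a certain finite sum is very near to
an integer.
PROOF (from SHIFT).  Let `v` be the rational value, `c = v.den`.  Put
`X3 = sum' W b/3^b`, `X4 = sum' Z j/4^j`, `X3 + X4 = v`.  Multiply SHIFT (`g = 3`) by
`c D (4^p - 1)` and SHIFT (`g = 4`, exponent `p`) by `c D (3^q - 1)` and add:
`c D (4^p-1)(3^q-1) v` is an integer; `D sum_{b<q} W b 3^(q-b)` and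
`D sum_{j<p} Z j 4^(p-j)` are integers, and so are the terms `b = 0` and `j = 0` of the two finite
sums.  The error is at most `c D (4^p - 1) 2C/3^T + c D (3^q-1) 2C/4^T`.  Take `c` as the natural
number of the conclusion. -/
def G_INT : Prop :=
  ∀ (W Z : ℕ → ℚ) (D : ℕ) (C : ℝ), 0 < D → (∀ b, ∃ z : ℤ, (D : ℚ) * W b = z) →
    (∀ j, ∃ z : ℤ, (D : ℚ) * Z j = z) → (∀ b, |(W b : ℝ)| ≤ C) → (∀ j, |(Z j : ℝ)| ≤ C) →
    ¬ Irrational ((∑' b : ℕ, (W b : ℝ) / 3 ^ b) + ∑' j : ℕ, (Z j : ℝ) / 4 ^ j) →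
    ∃ c : ℕ, 0 < c ∧ ∀ q p T : ℕ, ∃ M : ℤ,
      |(M : ℝ) - ∑ b ∈ Finset.Icc 1 T, (c : ℝ) * D * ((W (b + q) : ℝ) - W b) * (4 ^ p - 1) / 3 ^ b
        - ∑ j ∈ Finset.Icc 1 T, (c : ℝ) * D * ((Z (j + p) : ℝ) - Z j) * (3 ^ q - 1) / 4 ^ j| ≤
        2 * c * D * C * (4 ^ p / 3 ^ T + 3 ^ q / 4 ^ T)

/-- **ENUM**: a set with at most `K` elements as a list of length `K + 1` with padding, a
distinguished element first.
PROOF.  Enumerate `S.erase b0` by `Finset.orderEmbOfFin` or `Finset.equivFin` (it has at most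
`K - 1` elements), put `b0` first, pad with `0`. -/
def G_ENUM : Prop :=
  ∀ (K : ℕ) (S : Finset ℕ) (b0 : ℕ), b0 ∈ S → S.card ≤ K →
    ∃ (e : Fin (K + 1) → ℕ) (act : Fin (K + 1) → Bool),
      e 0 = b0 ∧ act 0 = true ∧ (∀ i, act i = true → e i ∈ S) ∧ (∀ i, act i = false → e i = 0) ∧
      (∀ i, i ≠ 0 → act i = true → e i ≠ b0) ∧
      ∀ f : ℕ → ℝ, ∑ b ∈ S, f b = ∑ i, if act i = true then f (e i) else 0

/-- **ENUM0**: the same without distinguished element. -/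
def G_ENUM0 : Prop :=
  ∀ (K : ℕ) (S : Finset ℕ), S.card ≤ K →
    ∃ (e : Fin (K + 1) → ℕ) (act : Fin (K + 1) → Bool),
      (∀ i, act i = true → e i ∈ S) ∧ (∀ i, act i = false → e i = 0) ∧
      ∀ f : ℕ → ℝ, ∑ b ∈ S, f b = ∑ i, if act i = true then f (e i) else 0

/-- **ABS**: abstract irrationality theorem.
PROOF (from CZ, INT, ENUM, ENUM0).  Suppose the number is rational and let `c` be as in INT.
For each `n` put `T = 6 B n`, `S_n = {b ∈ [1,T] : W (b + q n) ≠ W b}` (contains `B n`; `B n ≥ 1` for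
`n ≥ 1`), `S'_n = {j ∈ [1,T] : Z (j + p n) ≠ Z j}`; both have at most `K` elements.  INT gives an
integer `M n` with `|M n - sum_{S_n} c D dW_b (4^p/3^b - 1/3^b) - sum_{S'_n} c D dZ_j
(3^q/4^j - 1/4^j)| ≤ 2 c D C (4^p/3^T + 3^q/4^T) ≤ 6 c D C 3^(B n) 3^(-6 B n)
≤ exp (- 4 (log 3) B n)` for `n` large (`4^p ≤ 2 * 3^q`, `q ≤ B n`).
Enumerate `S_n` by ENUM (`e_n`, `act_n`, with `e_n 0 = B n`) and `S'_n` by ENUM0 (`e'_n`,
`act'_n`).  Index type `ι = Bool × Bool × Fin (K+1)`: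
`(true, true, i)`: `x = 2 p n`, `y = - e_n i`, coefficient `c D dW_(e_n i)` (`0` if not active);
`(true, false, i)`: `x = 0`, `y = - e_n i`, minus that coefficient;
`(false, true, i)`: `x = - 2 e'_n i`, `y = q n`, coefficient `c D dZ_(e'_n i)` (`0` if not active);
`(false, false, i)`: `x = - 2 e'_n i`, `y = 0`, minus that coefficient.
All coefficients are integers (`D W`, `D Z` are) of absolute value at most `2 c D C`, so there is an
infinite set `I` of `n` (all large) on which all coefficients are constant (pigeonhole,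
`Set.Infinite` and finitely many values).  `k0 = (true, true, 0)`, `a k0 = c D dW_(B n) ≠ 0`.
Bounds: `|x|, |y| ≤ 12 B n` (`p n ≤ 2 B n + 1`, from `4^p ≤ 2 * 3^q`), `|M n| ≤ exp (C' B n)`,
`kap = 4 log 3`, `kap1 = log 3` (`u_{k0} = 4^p/3^B ≥ 3^(-B)`), `del = 1`.
CZ gives `k ≠ k0` and `s, t` with `x k n = x k0 n + s`, `y k n = y k0 n + t` infinitely often.
`k = (true, true, i)`, `i ≠ 0`: not active infinitely often: `y k n = 0 = - B n + t`, impossible as
`B n → oo`; active infinitely often: `e_n i = B n - t`, `t ≠ 0` as `e_n i ≠ B n`, and this is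
excluded by the last hypothesis with `c = -t` (`e_n i ∈ S_n`).  The three other cases:
`x k n ≤ 0 = 2 p n + (x k n - 2 p n)`, so `x k n - x k0 n ≤ - 2 p n → - oo` is not constant
infinitely often. -/
def G_ABS : Prop :=
  ∀ (W Z : ℕ → ℚ) (D : ℕ) (C : ℝ) (K : ℕ) (q p B : ℕ → ℕ), 0 < D →
    (∀ b, ∃ z : ℤ, (D : ℚ) * W b = z) → (∀ j, ∃ z : ℤ, (D : ℚ) * Z j = z) →
    (∀ b, |(W b : ℝ)| ≤ C) → (∀ j, |(Z j : ℝ)| ≤ C) →
    (∀ n, n ≤ B n) → (∀ n, q n ≤ B n) → (∀ n, (4 : ℝ) ^ (p n) ≤ 2 * 3 ^ (q n)) →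
    (∀ n, n ≤ p n) →
    (∀ (n : ℕ) (S : Finset ℕ), (∀ b ∈ S, 1 ≤ b ∧ b ≤ 6 * B n ∧ W (b + q n) ≠ W b) →
      S.card ≤ K) →
    (∀ (n : ℕ) (S : Finset ℕ), (∀ j ∈ S, 1 ≤ j ∧ j ≤ 6 * B n ∧ Z (j + p n) ≠ Z j) →
      S.card ≤ K) →
    (∀ n, W (B n + q n) ≠ W (B n)) →
    (∀ c : ℤ, c ≠ 0 → ∃ n0 : ℕ, ∀ n ≥ n0, ∀ b : ℕ, 1 ≤ b → (b : ℤ) = B n + c →
      W (b + q n) = W b) →
    Irrational ((∑' b : ℕ, (W b : ℝ) / 3 ^ b) + ∑' j : ℕ, (Z j : ℝ) / 4 ^ j)

/-- **the goal** -/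
def G_IRR : Prop := Irrational V

end Pool.Agent.Helper33.IR
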