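import Pool.Agent.Helper33.IR.Goals
import Pool.Agent.Helper96.VF.Defs

/-!
# Project IR (MP_6829b3_nt): the bridge between `V` and `lambda`
-/

set_option autoImplicit false

namespace Pool.Agent.Helper33.IR

/-- **BR**: `V` is the double sum of helper96, `lambda = 11/18 + V/3`.
PROOF.  Show `∑' x : ℕ × ℕ, trm x = V`.  For `x = (j,b)` the term `trm (j,b)` is the sum of the
eight functions (each of the form `if condition then value else 0`)

* `A1 = [4^j ≤ 3^b, 3^b < 2*4^j] * 1/(2*3^b)`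
* `A2 = [3*3^b ≤ 4*4^j, 2*4^j < 3*3^b] * (-1/(3*3^b))`
* `A3 = [8*4^j ≤ 5*3^b, 3^b < 2*4^j] * (-1/(10*3^b))`
* `A4 = [3*3^b ≤ 5*4^j, 4*4^j < 3*3^b] * 1/(12*3^b)`
* `B1 = [3^b < 4^j, 2*4^j < 3*3^b] * 1/(2*4^j)`
* `B2 = [4*4^j < 3*3^b, 3^b < 2*4^j] * (-1/(4*4^j))`
* `B3 = [5*3^b < 8*4^j, 4*4^j < 3*3^b] * (-1/(16*4^j))`
* `B4 = [5*4^j < 3*3^b, 3^b < 2*4^j] * 1/(20*4^j)`

(the interval `[2*4^j,4*4^j) ∩ [2*3^b,3*3^b)` is nonempty iff `2*4^j < 3*3^b` and `3^b < 2*4^j`, its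
left end is `2*3^b` if `4^j ≤ 3^b` and `2*4^j` otherwise, its right end is `3*3^b` if
`3*3^b ≤ 4*4^j` and `4*4^j` otherwise; the interval `[16*4^j,20*4^j) ∩ [10*3^b,12*3^b)` is nonempty
iff `4*4^j < 3*3^b` and `3^b < 2*4^j`, left end `10*3^b` if `8*4^j ≤ 5*3^b` and `16*4^j` otherwise,
right end `12*3^b` if `3*3^b ≤ 5*4^j` and `20*4^j` otherwise; `mu` is the difference of the inverses
of the two ends if the interval is nonempty and `0` otherwise).

General lemma (two versions, for columns and for rows): if for every `b` at most one `j` has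
`P j b`, and `∑ |g b|` converges, then `fun x => if P x.1 x.2 then g x.2 else 0` is summable on
`ℕ × ℕ` and its sum is `∑' b, if ∃ j, P j b then g b else 0` (e.g. `summable_of_sum_le` on absolute
values, `Summable.tsum_prod`, `Summable.tsum_comm'`, `tsum_eq_single`; or restrict to the injective
image of `{b | ∃ j, P j b}`).  It applies to all eight: in each case the two conditions place
`4^j` in an interval `[u, 4u)` (given `b`), and `3^b` in an interval `[v, 3v)` (given `j`).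

Then identify the sums (`n = Nat.log 4 (3^b)`, `4^n ≤ 3^b < 4^(n+1)`, `rr b = 3^b/4^n`):
`A1`: `∃ j` iff `rr b < 2` (`j = n`).  `A3`: `∃ j` iff `8/5 ≤ rr b < 2` (`j = n`).
`A2` (`b' = b+1`): `∃ j, 3^b' ≤ 4^(j+1), 2*4^j < 3^b'` iff `2 < rr b'` (`j = n'`, as `3^b'` is no
power of `4`); the value is `-1/3^b'`; the term `b' = 0` vanishes (`rr 0 = 1`).
`A4`: `4^(j+1) < 3^b' ≤ (5/4) 4^(j+1)` iff `1 < rr b' ≤ 5/4` (`j + 1 = n'`; `n' ≥ 1` automatically:
`b' = 1` has `n' = 0`, `rr 1 = 3`), value `1/(4*3^b')`.  So the `A` sums give `∑' W b/3^b`.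
`B`, with `m = Nat.log 3 (4^j)`, `ss j = 4^j/3^m ∈ [1,3)`: `B1`: `∃ b` iff `1 < ss j < 3/2` (`b = m`).
`B2` (`j' = j+1`): `4^j' < 3^(b+1)`, `2*3^b < 4^j'`, iff `2 < ss j'` (`b = m'`), value `-1/4^j'`.
`B3` (`j' = j+2`): `(10/9) 3^(b+2) < 4^j' < (4/3) 3^(b+2)` iff `10/9 < ss j' < 4/3` (`b + 2 = m'`;
`j' = 2`: `ss 2 = 16/9`, no `b` and digit part zero; `j' ≥ 3` has `m' ≥ 3`), value `-1/4^j'`, and
`j' = 0, 1` contribute nothing (`ss 0 = 1`, `ss 1 = 4/3`).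
`B4`: `(3/2) 3^(b-1) < 4^j < (9/5) 3^(b-1)` iff `3/2 < ss j ≤ 9/5` (`b = m + 1`; `b = 0` is
impossible; `ss j = 9/5` is impossible), value `1/(20*4^j)`.  So the `B` sums give
`∑' Z j/4^j`. -/
def G_BR : Prop := Pool.Agent.Helper96.VF.lam = 11 / 18 + V / 3

end Pool.Agent.Helper33.IR
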