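import Pool.Agent.Helper33.IR.All
import Pool.Agent.Helper22.IR.BR

/-!
# Project IR: the constant `lambda` of helper96 is irrational
-/

set_option autoImplicit false

namespace Pool.Agent.Helper33.IR

/-- `lambda = 11/18 + V/3` is irrational -/
theorem irrLam : Irrational Pool.Agent.Helper96.VF.lam := by
  rw [Pool.Agent.Helper22.IR.gBR]
  have h := irrV
  intro hr
  apply h
  obtain ⟨r, hr⟩ := hr
  refine ⟨3 * (r - 11 / 18), ?_⟩
  push_cast
  rw [hr]
  ring

end Pool.Agent.Helper33.IR
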